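import Pool.Agent.Lib.MP_3fe454_an.PD.Main

/-!
A dissipative `C^{1+α}` embedding of the closed disc into its interior which has an invariant
probability measure not carried by the periodic points has a period doubling cascade.
No mild dissipation hypothesis is used.
-/

set_option autoImplicit false

open Set Metric MeasureTheory Function

namespace Pool.Agent.Results.MP_3fe454_an.AperiodicCascade

theorem result (f : ℂ → ℂ) (f' : ℂ → ℂ →L[ℝ] ℂ) (H α : ℝ) (hα : 0 < α)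
    (hd : ∀ z ∈ closedBall (0 : ℂ) 1, HasFDerivWithinAt f (f' z) (closedBall 0 1) z)
    (hh : ∀ z ∈ closedBall (0 : ℂ) 1, ∀ w ∈ closedBall (0 : ℂ) 1,
      ‖f' z - f' w‖ ≤ H * ‖z - w‖ ^ α)
    (hi : InjOn f (closedBall 0 1)) (hm : MapsTo f (closedBall 0 1) (ball 0 1))
    (hdet : ∀ z ∈ closedBall (0 : ℂ) 1, (f' z).det ≠ 0 ∧ |(f' z).det| < 1)
    (μ : Measure ℂ) [IsProbabilityMeasure μ] (hμ : μ (closedBall 0 1)ᶜ = 0)
    (hinv : ∀ A, MeasurableSet A → μ (closedBall 0 1 ∩ f ⁻¹' A) = μ A)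
    (hap : μ (closedBall 0 1 ∩ periodicPts f) < 1) :
    ∃ m : ℕ, 1 ≤ m ∧ ∀ k : ℕ, ∃ p ∈ closedBall (0 : ℂ) 1, minimalPeriod f p = m * 2 ^ k :=
  Pool.Agent.Lib.MP_3fe454_an.PD.main f f' H α hα hd hh hi hm hdet μ hμ hinv hap

end Pool.Agent.Results.MP_3fe454_an.AperiodicCascade
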