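import Pool.Agent.Lib.MP_3fe454_an.S2.Final
import Pool.Agent.Lib.MP_3fe454_an.S2.Rob

/-!
Tresser's conjecture for r > 1, everywhere on the boundary: a dissipative `C^{1+α}` embedding of
the closed disc into its interior which is a `C^1` limit of self maps of the disc with positive
topological entropy has a period doubling cascade.
-/

set_option autoImplicit false

open Set Metric Function

namespace Pool.Agent.Results.MP_3fe454_an.BoundaryCascade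

theorem result (f : ℂ → ℂ) (f' : ℂ → ℂ →L[ℝ] ℂ) (H α : ℝ) (hα : 0 < α)
    (hd : ∀ z ∈ closedBall (0 : ℂ) 1, HasFDerivWithinAt f (f' z) (closedBall 0 1) z)
    (hh : ∀ z ∈ closedBall (0 : ℂ) 1, ∀ w ∈ closedBall (0 : ℂ) 1,
      ‖f' z - f' w‖ ≤ H * ‖z - w‖ ^ α)
    (hi : InjOn f (closedBall 0 1)) (hm : MapsTo f (closedBall 0 1) (ball 0 1))
    (hdet : ∀ z ∈ closedBall (0 : ℂ) 1, (f' z).det ≠ 0 ∧ |(f' z).det| < 1)
    (hlim : ∀ ε > 0, ∃ (h : ℂ → ℂ) (h' : ℂ → ℂ →L[ℝ] ℂ),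
      MapsTo h (closedBall 0 1) (closedBall 0 1) ∧
      (∀ z ∈ closedBall (0 : ℂ) 1, HasFDerivWithinAt h (h' z) (closedBall 0 1) z ∧
        ‖h z - f z‖ ≤ ε ∧ ‖h' z - f' z‖ ≤ ε) ∧
      0 < Dynamics.coverEntropy h (closedBall 0 1)) :
    ∃ m : ℕ, 1 ≤ m ∧ ∀ k : ℕ, ∃ p ∈ closedBall (0 : ℂ) 1, minimalPeriod f p = m * 2 ^ k :=
  Pool.Agent.Lib.MP_3fe454_an.S2.final_of Pool.Agent.Lib.MP_3fe454_an.S2.robust
    f f' H α hα hd hh hi hm hdet hlim

end Pool.Agent.Results.MP_3fe454_an.BoundaryCascade
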