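import Pool.Agent.Lib.MP_3fe454_an.Limit

/-! For `r = 1` there is an orientation preserving dissipative diffeomorphism of the disc with zero
entropy, on the boundary of zero entropy, whose periods are exactly the powers of three; in
particular it has no period-doubling cascade. -/

open Pool.Agent.Lib.MP_3fe454_an in
theorem Pool.Agent.Results.MP_3fe454_an.TriplingOnBoundary.result :
    ∃ f : ℝ × ℝ → ℝ × ℝ, InBoundary f ∧ (∀ x ∈ disc, 0 < (fderivWithin ℝ f disc x).det) ∧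
      entropy f = 0 ∧
      (∀ m : ℕ, 0 < m → ((∃ x ∈ disc, Function.minimalPeriod f x = m) ↔ ∃ k : ℕ, m = 3 ^ k)) ∧
      ¬ ∃ m : ℕ, 1 ≤ m ∧ ∀ k : ℕ, ∃ x ∈ disc, Function.minimalPeriod f x = m * 2 ^ k := by
  obtain ⟨f, h1, h2, h3, h4⟩ := main
  refine ⟨f, h1, h2, h3, h4, ?_⟩
  rintro ⟨m, hm, h⟩
  obtain ⟨k, hk⟩ := (h4 (m * 2 ^ 1) (by omega)).1 (h 1)
  have : Odd (3 ^ k) := Odd.pow (by decide)
  rw [← hk] at this
  exact (Nat.not_odd_iff_even.2 (by simp)) this
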